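import Pool.Agent.K7.H38.MD.Norm

/-!
# The norm of the mixed second derivative on the disc spectrum space

Let `B(K₂)` be the space of the bounded functions on `ℝ²` with spectrum in the closed unit disc, with the
sup norm, and let `T = ∂² / ∂x₁ ∂x₂`. We show `‖T‖ = 2 / π`; the norm is attained at the origin by

  `f_*(x) = - (2 x₁ x₂ / |x|²) cos √(|x|² + π² / 4)`.

Proof of the upper bound: with `κ = 4 / π²` and the directions `u, v` of the two diagonals,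
`T = ½ (∂_u² + κ) - ½ (∂_v² + κ)`, and on functions of one variable of exponential type `≤ 1` the operator
`∂² + κ` has norm `2 / π`.
-/

set_option autoImplicit false

open Set

namespace Pool.Agent.Results.MP_7ba380_an.MixedDerivativeNorm

/-- entire functions `F` on `ℂ²` of exponential type with spectrum in the closed unit disc:
`|F(z)| ≤ C_ε exp (|Im z| + ε |z|)` for every `ε > 0`, where `|Im z|` is the euclidean norm of the
imaginary part -/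
def SpecDisc (F : ℂ × ℂ → ℂ) : Prop :=
  AnalyticOnNhd ℂ F univ ∧
    ∀ ε > 0, ∃ C : ℝ, ∀ z : ℂ × ℂ, ‖F z‖ ≤ C * Real.exp (√(z.1.im ^ 2 + z.2.im ^ 2) + ε * ‖z‖)

/-- the space `B(K₂)`: bounded functions on `ℝ²` which are restrictions of entire functions of
exponential type with spectrum in the closed unit disc -/
def B : Set (ℝ × ℝ → ℂ) :=
  {f | (∃ M : ℝ, ∀ p, ‖f p‖ ≤ M) ∧
    ∃ F : ℂ × ℂ → ℂ, SpecDisc F ∧ ∀ x y : ℝ, f (x, y) = F ((x : ℂ), (y : ℂ))}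

/-- the operator `T = ∂² / ∂x₁ ∂x₂` -/
noncomputable def T (f : ℝ × ℝ → ℂ) (p : ℝ × ℝ) : ℂ :=
  deriv (fun x : ℝ => deriv (fun y : ℝ => f (x, y)) p.2) p.1

/-- the norm of `B(K₂)`: `‖f‖ = sup |f(x)|` -/
noncomputable def supNorm (f : ℝ × ℝ → ℂ) : ℝ := ⨆ p, ‖f p‖

/-- the operator norm: `‖S‖ = sup {‖S f‖ : f ∈ B(K₂), ‖f‖ ≤ 1}` -/
noncomputable def opNorm (S : (ℝ × ℝ → ℂ) → ℝ × ℝ → ℂ) : ℝ :=
  sSup {r | ∃ f ∈ B, supNorm f ≤ 1 ∧ r = supNorm (S f)}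

/-- the function `f_*(x) = - (2 x₁ x₂ / |x|²) cos √(|x|² + π² / 4)` (which is `0` at the origin) -/
noncomputable def fstar (p : ℝ × ℝ) : ℂ :=
  ((-(2 * p.1 * p.2 / (p.1 ^ 2 + p.2 ^ 2) *
    Real.cos √(p.1 ^ 2 + p.2 ^ 2 + (Real.pi / 2) ^ 2)) : ℝ) : ℂ)

/-- `T` maps `B(K₂)` into itself, its norm on `B(K₂)` is `2 / π`, and `f_*` is a normal extremal. -/
theorem result :
    (∀ f ∈ B, T f ∈ B) ∧
    opNorm T = 2 / Real.pi ∧
    (fstar ∈ B ∧ supNorm fstar ≤ 1 ∧ T fstar 0 = ((2 / Real.pi : ℝ) : ℂ)) :=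
  ⟨fun _ hf => Pool.Agent.K7.H38.MD.T_mem hf, Pool.Agent.K7.H38.MD.opNorm_T,
    Pool.Agent.K7.H38.MD.fs_mem, Pool.Agent.K7.H38.MD.supNorm_le Pool.Agent.K7.H38.MD.fs_le,
    Pool.Agent.K7.H38.MD.T_fs⟩

end Pool.Agent.Results.MP_7ba380_an.MixedDerivativeNorm
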