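import Pool.Agent.K7.H38.MD.Inf

/-!
# The normal extremals of the mixed second derivative on the disc spectrum space

Let `B(K₂)` be the space of the bounded functions on `ℝ²` with spectrum in the closed unit disc, with the
sup norm, and let `T = ∂² / ∂x₁ ∂x₂`. A normal extremal of `T` is a function `f ∈ B(K₂)` with `‖f‖ ≤ 1` and
`(T f)(0) = ‖T‖`. Let `u = (1, 1) / √2` and `v = (1, -1) / √2`. We show that for `f ∈ B(K₂)` with
`‖f‖ ≤ 1` the following are equivalent: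

* `f` is a normal extremal;
* `f(± t_k u) = (-1)^(k+1)` and `f(± t_k v) = (-1)^k` for all `k ≥ 1`, where `t_k = π √(k² - 1/4)`;
* there are real numbers `α, β, γ` with `4 α² / π² + β² ≤ 1` and `4 α² / π² + γ² ≤ 1` such that, with
  `w = √(t² + π² / 4)`, for all real `t`
  `f(t u) = - cos w + i (α + β t) sin w / w` and `f(t v) = cos w + i (α + γ t) sin w / w`.

So the normal extremals are the functions in the unit ball of `B(K₂)` with these restrictions to the two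
diagonals. They contain an explicit family with three real parameters, and they span a space of infinite
dimension.
-/

set_option autoImplicit false

open Set

namespace Pool.Agent.Results.MP_7ba380_an.NormalExtremals

/-- entire functions `F` on `ℂ²` of exponential type with spectrum in the closed unit disc:
`|F(z)| ≤ C_ε exp (|Im z| + ε |z|)` for every `ε > 0`, where `|Im z|` is the euclidean norm of the
imaginary part -/
def SpecDisc (F : ℂ × ℂ → ℂ) : Prop :=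
  AnalyticOnNhd ℂ F univ ∧
    ∀ ε > 0, ∃ C : ℝ, ∀ z : ℂ × ℂ, ‖F z‖ ≤ C * Real.exp (√(z.1.im ^ 2 + z.2.im ^ 2) + ε * ‖z‖)

/-- the space `B(K₂)`: bounded functions on `ℝ²` which are restrictions of entire functions of
exponential type with spectrum in the closed unit disc -/
def B : Set (ℝ × ℝ → ℂ) :=
  {f | (∃ M : ℝ, ∀ p, ‖f p‖ ≤ M) ∧
    ∃ F : ℂ × ℂ → ℂ, SpecDisc F ∧ ∀ x y : ℝ, f (x, y) = F ((x : ℂ), (y : ℂ))}

/-- the operator `T = ∂² / ∂x₁ ∂x₂` -/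
noncomputable def T (f : ℝ × ℝ → ℂ) (p : ℝ × ℝ) : ℂ :=
  deriv (fun x : ℝ => deriv (fun y : ℝ => f (x, y)) p.2) p.1

/-- the norm of `B(K₂)`: `‖f‖ = sup |f(x)|` -/
noncomputable def supNorm (f : ℝ × ℝ → ℂ) : ℝ := ⨆ p, ‖f p‖

/-- the operator norm: `‖S‖ = sup {‖S f‖ : f ∈ B(K₂), ‖f‖ ≤ 1}` -/
noncomputable def opNorm (S : (ℝ × ℝ → ℂ) → ℝ × ℝ → ℂ) : ℝ :=
  sSup {r | ∃ f ∈ B, supNorm f ≤ 1 ∧ r = supNorm (S f)}

/-- `f` is a normal extremal of `T`: `f ∈ B(K₂)`, `‖f‖ ≤ 1` and `(T f)(0) = ‖T‖` -/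
def NormalExtremal (f : ℝ × ℝ → ℂ) : Prop :=
  f ∈ B ∧ supNorm f ≤ 1 ∧ T f 0 = (opNorm T : ℂ)

/-- the point `t u`, where `u = (1, 1) / √2` -/
noncomputable def pu (t : ℝ) : ℝ × ℝ := (t / √2, t / √2)

/-- the point `t v`, where `v = (1, -1) / √2` -/
noncomputable def pv (t : ℝ) : ℝ × ℝ := (t / √2, -(t / √2))

/-- the nodes `t_k = π √(k² - 1/4)` -/
noncomputable def node (k : ℕ) : ℝ := Real.pi * √((k : ℝ) ^ 2 - 1 / 4)

/-- `f` has the values `(-1)^(k+1)` at `± t_k u` and `(-1)^k` at `± t_k v`, for all `k ≥ 1` -/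
def Values (f : ℝ × ℝ → ℂ) : Prop :=
  ∀ k : ℕ, 1 ≤ k →
    f (pu (node k)) = (-1) ^ (k + 1) ∧ f (pu (-node k)) = (-1) ^ (k + 1) ∧
    f (pv (node k)) = (-1) ^ k ∧ f (pv (-node k)) = (-1) ^ k

/-- the form of `f` on the two diagonals: for some real `α, β, γ` with `4 α² / π² + β² ≤ 1` and
`4 α² / π² + γ² ≤ 1`, and with `w = √(t² + π² / 4)`,
`f(t u) = - cos w + i (α + β t) sin w / w` and `f(t v) = cos w + i (α + γ t) sin w / w` -/
def Form (f : ℝ × ℝ → ℂ) : Prop :=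
  ∃ α β γ : ℝ, 4 * α ^ 2 / Real.pi ^ 2 + β ^ 2 ≤ 1 ∧ 4 * α ^ 2 / Real.pi ^ 2 + γ ^ 2 ≤ 1 ∧
    ∀ t : ℝ,
      f (pu t) = -((Real.cos √(t ^ 2 + (Real.pi / 2) ^ 2) : ℝ) : ℂ)
        + Complex.I * (((α + β * t) * (Real.sin √(t ^ 2 + (Real.pi / 2) ^ 2)
          / √(t ^ 2 + (Real.pi / 2) ^ 2)) : ℝ) : ℂ) ∧
      f (pv t) = ((Real.cos √(t ^ 2 + (Real.pi / 2) ^ 2) : ℝ) : ℂ)
        + Complex.I * (((α + γ * t) * (Real.sin √(t ^ 2 + (Real.pi / 2) ^ 2)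
          / √(t ^ 2 + (Real.pi / 2) ^ 2)) : ℝ) : ℂ)

/-- the function `f_*(x) = - (2 x₁ x₂ / |x|²) cos √(|x|² + π² / 4)` (which is `0` at the origin) -/
noncomputable def fstar (p : ℝ × ℝ) : ℂ :=
  ((-(2 * p.1 * p.2 / (p.1 ^ 2 + p.2 ^ 2) *
    Real.cos √(p.1 ^ 2 + p.2 ^ 2 + (Real.pi / 2) ^ 2)) : ℝ) : ℂ)

/-- the family with three parameters:
`f_*(x) + i (α + β ⟨x, u⟩ + γ ⟨x, v⟩) sin w / w`, where `w = √(|x|² + π² / 4)` -/
noncomputable def fam (α β γ : ℝ) (p : ℝ × ℝ) : ℂ :=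
  fstar p + Complex.I * (((α + β * ((p.1 + p.2) / √2) + γ * ((p.1 - p.2) / √2)) *
    (Real.sin √(p.1 ^ 2 + p.2 ^ 2 + (Real.pi / 2) ^ 2)
      / √(p.1 ^ 2 + p.2 ^ 2 + (Real.pi / 2) ^ 2)) : ℝ) : ℂ)

theorem supNorm_iff {f : ℝ × ℝ → ℂ} (hf : f ∈ B) : supNorm f ≤ 1 ↔ ∀ p, ‖f p‖ ≤ 1 :=
  ⟨fun h p => (Pool.Agent.K7.H38.MD.le_supNorm hf p).trans h,
    fun h => Pool.Agent.K7.H38.MD.supNorm_le h⟩

theorem opNorm_T : opNorm T = 2 / Real.pi := Pool.Agent.K7.H38.MD.opNorm_T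

theorem normalExtremal_iff {f : ℝ × ℝ → ℂ} :
    NormalExtremal f ↔ f ∈ Pool.Agent.K7.H38.MD.NE := by
  unfold NormalExtremal
  rw [opNorm_T]
  constructor
  · rintro ⟨h1, h2, h3⟩
    exact ⟨h1, (supNorm_iff h1).1 h2, h3⟩
  · rintro ⟨h1, h2, h3⟩
    exact ⟨h1, (supNorm_iff h1).2 h2, h3⟩

/-- (1) `‖T‖ = 2 / π`.

(2) For `f ∈ B(K₂)` with `‖f‖ ≤ 1`: `f` is a normal extremal if and only if it has the values `(-1)^(k+1)`
and `(-1)^k` at `± t_k u` and `± t_k v`, and this holds if and only if it has the form above on the two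
diagonals.

(3) The functions `f_* + i (α + β ⟨x, u⟩ + γ ⟨x, v⟩) sin w / w` with `4 α² / π² + β² + γ² ≤ 1` are normal
extremals; in particular `f_*` is.

(4) If `h` is an entire function of exponential type with spectrum in the closed unit disc and
`|x|⁴ |h(x)| ≤ 1/2` on `ℝ²`, then `f_* + (x₁² - x₂²)² h` is a normal extremal.

(5) The normal extremals span a space of infinite dimension. -/
theorem result :
    opNorm T = 2 / Real.pi ∧
    (∀ f ∈ B, supNorm f ≤ 1 →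
      (NormalExtremal f ↔ Values f) ∧ (NormalExtremal f ↔ Form f)) ∧
    (∀ α β γ : ℝ, 4 * α ^ 2 / Real.pi ^ 2 + β ^ 2 + γ ^ 2 ≤ 1 → NormalExtremal (fam α β γ)) ∧
    (∀ h : ℂ × ℂ → ℂ, SpecDisc h →
      (∀ x y : ℝ, (x ^ 2 + y ^ 2) ^ 2 * ‖h ((x : ℂ), (y : ℂ))‖ ≤ 1 / 2) →
      NormalExtremal (fun p : ℝ × ℝ =>
        fstar p + ((p.1 : ℂ) ^ 2 - (p.2 : ℂ) ^ 2) ^ 2 * h ((p.1 : ℂ), (p.2 : ℂ)))) ∧
    ¬ FiniteDimensional ℂ (Submodule.span ℂ {f | NormalExtremal f}) := by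
  refine ⟨opNorm_T, fun f hf hf1 => ?_, fun α β γ h => ?_, fun h hh hb => ?_, ?_⟩
  · have h1 := (supNorm_iff hf).1 hf1
    have h2 : NormalExtremal f ↔ T f 0 = ((2 / Real.pi : ℝ) : ℂ) := by
      rw [normalExtremal_iff]
      exact ⟨fun h => h.2.2, fun h => ⟨hf, h1, h⟩⟩
    obtain ⟨k1, k2⟩ := Pool.Agent.K7.H38.MD.extremal_iff hf h1
    exact ⟨h2.trans k1, h2.trans k2⟩
  · rw [normalExtremal_iff]
    exact Pool.Agent.K7.H38.MD.famL_extremal h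
  · rw [normalExtremal_iff]
    exact Pool.Agent.K7.H38.MD.famH_extremal hh hb
  · have e : {f | NormalExtremal f} = Pool.Agent.K7.H38.MD.NE := by
      ext f
      exact normalExtremal_iff
    rw [e]
    exact Pool.Agent.K7.H38.MD.not_fin

end Pool.Agent.Results.MP_7ba380_an.NormalExtremals
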